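import Pool.Agent.MWG.Stmts

/-!
# Squad MWG (MP_23468a_al), row KPZ: the exchange of two light letters is join prime
-/

set_option autoImplicit false

namespace Pool.Agent.MWG.H64

open Pool.Agent.Helper14_MV Pool.Agent.Helper2_MV Pool.Agent.MVO Pool.Agent.MWL Pool.Agent.MWS

/-! ### types -/

theorem deg_zero {j : ℕ} {t : ℕ → ℕ} (h : deg j t = 0) : ∀ j' ≤ j, t j' = 0 := by
  intro j' hj'
  unfold deg at h
  exact (Finset.sum_eq_zero_iff.1 h) j' (Finset.mem_range.2 (by omega))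

theorem deg_single {j i : ℕ} {t : ℕ → ℕ} (hi : i ≤ j) (h : ∀ j' ≤ j, j' ≠ i → t j' = 0) :
    deg j t = t i := by
  unfold deg
  refine Finset.sum_eq_single i (fun b hb hbi => h b ?_ hbi) (fun hn => ?_)
  · have := Finset.mem_range.1 hb
    omega
  · exact absurd (Finset.mem_range.2 (by omega)) hn

theorem two_le_deg {j i j' : ℕ} {t : ℕ → ℕ} (h1 : i < j') (h2 : j' ≤ j) :
    t i + t j' ≤ deg j t := by
  unfold deg
  have h : ∑ x ∈ ({i, j'} : Finset ℕ), t x ≤ ∑ x ∈ Finset.range (j + 1), t x := by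
    refine Finset.sum_le_sum_of_subset fun x hx => ?_
    rw [Finset.mem_insert, Finset.mem_singleton] at hx
    rw [Finset.mem_range]
    rcases hx with rfl | rfl <;> omega
  rwa [Finset.sum_pair (by omega)] at h

theorem f1 {k i : ℕ} {t t0 a : ℕ → ℕ} (hD : Dt k t t0) (hE : Eqt k t0 a) (hL : Lf a i)
    (hi : i ≤ k) : ∀ j < i, t j = 0 := by
  intro j hj
  have h1 : deg j t0 = 0 := by
    unfold deg
    refine Finset.sum_eq_zero fun x hx => ?_
    have hx' := Finset.mem_range.1 hx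
    exact ((hE x (by omega)).1).2 (hL.2 x (by omega))
  have h2 := (hD j (by omega)).1
  rw [h1] at h2
  have h3 : deg j t = 0 := by omega
  exact deg_zero h3 j le_rfl

theorem f2 {k i : ℕ} {t t0 a : ℕ → ℕ} (hD : Dt k t t0) (hE : Eqt k t0 a) (hL : Lf a i)
    {j : ℕ} (hij : i ≤ j) (hj : j ≤ k) (h0 : ∀ j', i < j' → j' ≤ j → a j' = 0) :
    deg j t = 1 := by
  have h1 : deg j t0 = t0 i := by
    refine deg_single hij fun j' hj' hne => ?_
    refine ((hE j' (by omega)).1).2 ?_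
    rcases lt_or_gt_of_ne hne with h | h
    · exact hL.2 j' h
    · exact h0 j' h hj'
  have h2 : t0 i = 1 := (((hE i (by omega)).2).2 hL).1
  have h3 := (hD j hj).1
  rw [h1, h2] at h3
  omega

theorem f3 {k i : ℕ} {t t0 a : ℕ → ℕ} (hD : Dt k t t0) (hE : Eqt k t0 a) (hL : Lf a i)
    (hi : i ≤ k) : t i = 1 := by
  have h1 := f2 hD hE hL le_rfl hi (fun j' h1 h2 => by omega)
  rwa [deg_single le_rfl (fun j' hj' hne => f1 hD hE hL hi j' (by omega))] at h1

theorem f4 {k i : ℕ} {t t0 a : ℕ → ℕ} (hD : Dt k t t0) (hE : Eqt k t0 a) (hL : Lf a i)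
    {j : ℕ} (hij : i ≤ j) (hj : j ≤ k) (h0 : ∀ j', i < j' → j' ≤ j → a j' = 0) :
    ∀ j', i < j' → j' ≤ j → t j' = 0 := by
  intro j' h1 h2
  have h3 := f2 hD hE hL hij hj h0
  have h4 := f3 hD hE hL (by omega)
  have h5 : t i + t j' ≤ deg j t := two_le_deg h1 h2
  omega

theorem f5 {k i : ℕ} {t t0 a : ℕ → ℕ} (hD : Dt k t t0) (hE : Eqt k t0 a) (hi : i ≤ k)
    (h : ∃ j, i < j ∧ j ≤ k ∧ a j ≠ 0) : ∃ j, i < j ∧ j ≤ k ∧ t j ≠ 0 := by
  by_contra hn
  push Not at hn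
  obtain ⟨j, h1, h2, h3⟩ := h
  have h4 := ((hD i hi).2).1 hn
  exact h3 (((hE j h2).1).1 (h4 j h1 h2))

theorem f6 {k : ℕ} {t t0 a : ℕ → ℕ} (hD : Dt k t t0) (hE : Eqt k t0 a) {j : ℕ} (hj : j ≤ k)
    (h : ∀ j', j < j' → j' ≤ k → a j' = 0) : ∀ j', j < j' → j' ≤ k → t j' = 0 :=
  ((hD j hj).2).2 fun j' h1 h2 => ((hE j' h2).1).2 (h j' h1 h2)

theorem ex_of_deg {k i : ℕ} {a : ℕ → ℕ} (hL : Lf a i) (hi : i ≤ k) (hd : 2 ≤ deg k a) :
    ∃ j, i < j ∧ j ≤ k ∧ a j ≠ 0 := by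
  by_contra hn
  push Not at hn
  have h1 : deg k a = a i := by
    refine deg_single hi fun j' hj' hne => ?_
    rcases lt_or_gt_of_ne hne with h | h
    · exact hL.2 j' h
    · exact hn j' h hj'
  have h2 := hL.1
  omega

/-! ### lists -/

theorem pshB_empty {k : ℕ} {f : ℕ → ℕ} {B : ℕ → List ℕ} {j : ℕ}
    (h : ∀ i' ≤ k, f i' = j → B i' = []) : pshB k f B j = [] := by
  rw [List.eq_nil_iff_forall_not_mem]
  intro c hc
  obtain ⟨i, hi, hf, hc'⟩ := mem_pshB.1 hc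
  rw [h i hi hf] at hc'
  exact absurd hc' List.not_mem_nil

theorem pshB_single {k : ℕ} {f : ℕ → ℕ} {B : ℕ → List ℕ} {j i : ℕ} (hi : i ≤ k) (hf : f i = j)
    (h : ∀ i' ≤ k, f i' = j → i' ≠ i → B i' = []) : pshB k f B j = B i := by
  induction k with
  | zero =>
    have e : i = 0 := by omega
    subst e
    rw [pshB_zero, if_pos hf]
  | succ k ih =>
    rw [pshB_succ]
    by_cases hk : i = k + 1
    · rw [if_pos (hk ▸ hf), pshB_empty (fun i' hi' hf' => h i' (by omega) hf' (by omega)), hk]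
      rfl
    · rw [ih (by omega) (fun i' hi' hf' hne => h i' (by omega) hf' hne)]
      split_ifs with h1
      · rw [h (k + 1) le_rfl h1 (fun e => hk e.symm), List.append_nil]
      · rw [List.append_nil]

theorem pair_of {l : List ℕ} (h : ∀ c ∈ l, c = 0 ∨ c = 1) (h0 : l.count 0 = 1)
    (h1 : l.count 1 = 1) : l = [0, 1] ∨ l = [1, 0] := by
  have hp : l.Perm [0, 1] := by
    rw [List.perm_iff_count]
    intro a
    by_cases ha0 : a = 0
    · rw [ha0, h0]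
      rfl
    by_cases ha1 : a = 1
    · rw [ha1, h1]
      rfl
    · rw [List.count_eq_zero.2 fun hm => (h a hm).elim ha0 ha1]
      exact (List.count_eq_zero.2 (by simp [ha0, ha1])).symm
  have hl : l.length = 2 := hp.length_eq
  obtain ⟨x, y, rfl⟩ := List.length_eq_two.1 hl
  rcases h x (by simp) with rfl | rfl <;> rcases h y (by simp) with rfl | rfl
  · simp at h1
  · exact Or.inl rfl
  · exact Or.inr rfl
  · simp at h0

theorem rep_of {l : List ℕ} {c : ℕ} (h : ∀ e ∈ l, e = c) (hc : c ∈ l) :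
    ∃ m, 1 ≤ m ∧ l = List.replicate m c :=
  ⟨l.length, List.length_pos_of_mem hc, List.eq_replicate_of_mem h⟩

theorem red (gmd : GmdStmt) {β : FIC} (hβ : ClM β) (l0 : List ℕ) {c d m u : ℕ} (hm : 1 ≤ m)
    (hu : 1 ≤ u) (hc : c ∈ l0) (hd : d ∈ l0) :
    RR β ((l0 ++ 2 :: List.replicate m c) ++ 3 :: List.replicate u d) (l0 ++ [2, c, 3, d]) := by
  have h1 := (gmd β hβ).1 (l0 ++ [2]) (3 :: List.replicate u d) c m 1
    (List.mem_append_left _ hc) hm le_rfl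
  have h2 := (gmd β hβ).1 (l0 ++ [2, c, 3]) [] d u 1 (List.mem_append_left _ hd) hu le_rfl
  have e1 : (l0 ++ 2 :: List.replicate m c) ++ 3 :: List.replicate u d =
      l0 ++ [2] ++ (List.replicate m c ++ 3 :: List.replicate u d) := by simp
  have e2 : l0 ++ [2] ++ (List.replicate 1 c ++ 3 :: List.replicate u d) =
      l0 ++ [2, c, 3] ++ (List.replicate u d ++ []) := by simp
  have e3 : l0 ++ [2, c, 3] ++ (List.replicate 1 d ++ []) = l0 ++ [2, c, 3, d] := by simp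
  rw [e1]
  rw [e2] at h1
  rw [e3] at h2
  exact β.trans h1 h2

/-! ### one family -/

theorem push_fam (gmd : GmdStmt) {β : FIC} (hβ : ClM β) {k i j2 : ℕ} (hi : i ≤ k)
    {B B0 : ℕ → List ℕ} {c d : ℕ} (hcd : (c = 0 ∧ d = 1) ∨ (c = 1 ∧ d = 0)) {ac ad : ℕ → ℕ}
    (hEc : Eqt k (ty B0 c) ac) (hEd : Eqt k (ty B0 d) ad) (hLc : Lf ac i) (hLd : Lf ad i)
    (hxc : ∃ j, i < j ∧ j ≤ k ∧ ac j ≠ 0) (hj1 : i < j2) (hj2 : j2 ≤ k) (hd2 : ad j2 ≠ 0)
    (hmin : ∀ j', i < j' → j' < j2 → ad j' = 0) (hlast : ∀ j', j2 ≤ j' → j' ≤ k → ac j' = 0)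
    (tB : Two01 k B) (Dc : Dt k (ty B c) (ty B0 c)) (Dd : Dt k (ty B d) (ty B0 d)) {f : ℕ → ℕ}
    (hf : ∀ j, f j = if j ≤ i then 0 else if j < j2 then 1 else 2) :
    RR β (asm 2 (pshB k f B)) (B i ++ [2, c, 3, d]) := by
  have two : ∀ j ≤ k, ∀ e ∈ B j, e = c ∨ e = d := by
    intro j hj e he
    rcases hcd with ⟨rfl, rfl⟩ | ⟨rfl, rfl⟩
    · exact tB j hj e he
    · exact (tB j hj e he).symm
  have mem_of : ∀ e j, ty B e j ≠ 0 → e ∈ B j := by
    intro e j h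
    by_contra hn
    exact h (List.count_eq_zero.2 hn)
  have nmem_of : ∀ e j, ty B e j = 0 → e ∉ B j := fun e j h => List.count_eq_zero.1 h
  have hb0 : pshB k f B 0 = B i := by
    refine pshB_single hi (by rw [hf, if_pos le_rfl]) fun i' hi' hfi hne => ?_
    have h1 : i' < i := by
      rw [hf] at hfi
      by_contra hn
      rw [if_neg (by omega)] at hfi
      split_ifs at hfi
    rw [List.eq_nil_iff_forall_not_mem]
    intro e he
    rcases two i' hi' e he with rfl | rfl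
    · exact nmem_of _ _ (f1 Dc hEc hLc hi i' h1) he
    · exact nmem_of _ _ (f1 Dd hEd hLd hi i' h1) he
  have dz : ∀ j, i < j → j < j2 → ty B d j = 0 := by
    intro j h1 h2
    exact f4 Dd hEd hLd (j := j2 - 1) (by omega) (by omega)
      (fun j' h3 h4 => hmin j' h3 (by omega)) j h1 (by omega)
  have cz : ∀ j, j2 ≤ j → j ≤ k → ty B c j = 0 := by
    intro j h1 h2
    exact f6 Dc hEc (j := j2 - 1) (by omega) (fun j' h3 h4 => hlast j' (by omega) h4) j
      (by omega) h2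
  obtain ⟨m, hm, hb1⟩ : ∃ m, 1 ≤ m ∧ pshB k f B 1 = List.replicate m c := by
    refine rep_of (fun e he => ?_) ?_
    · obtain ⟨j, hj, hfj, hej⟩ := mem_pshB.1 he
      have hjj : i < j ∧ j < j2 := by
        rw [hf] at hfj
        split_ifs at hfj <;> omega
      rcases two j hj e hej with rfl | rfl
      · rfl
      · exact absurd hej (nmem_of _ _ (dz j hjj.1 hjj.2))
    · obtain ⟨j, h1, h2, h3⟩ := f5 Dc hEc hi hxc
      have h4 : j < j2 := by
        by_contra hn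
        exact h3 (cz j (by omega) h2)
      exact mem_pshB.2 ⟨j, h2, by rw [hf, if_neg (by omega), if_pos h4], mem_of _ _ h3⟩
  obtain ⟨u, hu, hb2⟩ : ∃ u, 1 ≤ u ∧ pshB k f B 2 = List.replicate u d := by
    refine rep_of (fun e he => ?_) ?_
    · obtain ⟨j, hj, hfj, hej⟩ := mem_pshB.1 he
      have hjj : j2 ≤ j := by
        rw [hf] at hfj
        split_ifs at hfj <;> omega
      rcases two j hj e hej with rfl | rfl
      · exact absurd hej (nmem_of _ _ (cz j hjj hj))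
      · rfl
    · obtain ⟨j, h1, h2, h3⟩ := f5 Dd hEd hi ⟨j2, hj1, hj2, hd2⟩
      have h4 : ¬ j < j2 := fun hn => h3 (dz j h1 hn)
      exact mem_pshB.2 ⟨j, h2, by rw [hf, if_neg (by omega), if_neg h4], mem_of _ _ h3⟩
  have hci : c ∈ B i := mem_of _ _ (by rw [f3 Dc hEc hLc hi]; exact one_ne_zero)
  have hdi : d ∈ B i := mem_of _ _ (by rw [f3 Dd hEd hLd hi]; exact one_ne_zero)
  have e : asm 2 (pshB k f B) =
      (B i ++ 2 :: List.replicate m c) ++ 3 :: List.replicate u d := by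
    simp only [asm]
    rw [hb0, hb1, hb2]
  rw [e]
  exact red gmd hβ (B i) hm hu hci hdi

/-! ### the edge -/

/-- substitution of words for the separators -/
def sg (q1 q2 : List ℕ) (c : ℕ) : List ℕ := if c = 2 then q1 else if c = 3 then q2 else [c]

theorem core (gmd : GmdStmt) {β θ : FIC} (hβ : ClM β) (hle : β ≤ θ) {k i : ℕ} (hi : i ≤ k)
    {B0 B1 B B' : ℕ → List ℕ} {c d : ℕ} (hcd : (c = 0 ∧ d = 1) ∨ (c = 1 ∧ d = 0))
    {ac ad : ℕ → ℕ} (hEc : Eqt k (ty B0 c) ac) (hEd : Eqt k (ty B0 d) ad) (hLc : Lf ac i)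
    (hLd : Lf ad i) (hxc : ∃ j, i < j ∧ j ≤ k ∧ ac j ≠ 0) (hxd : ∃ j, i < j ∧ j ≤ k ∧ ad j ≠ 0)
    (hord : ∀ j1 j2, i < j1 → i < j2 → j1 ≤ k → j2 ≤ k → ac j1 ≠ 0 → ad j2 ≠ 0 → j1 < j2)
    (h0 : B0 i = [0, 1]) (h1 : B1 i = [1, 0]) (h01 : ∀ j, j ≠ i → B0 j = B1 j)
    (hB : BlkOk k B) (hB' : BlkOk k B') (tB : Two01 k B) (tB' : Two01 k B')
    (Dc : Dt k (ty B c) (ty B0 c)) (Dd : Dt k (ty B d) (ty B0 d))
    (Dc' : Dt k (ty B' c) (ty B0 c)) (Dd' : Dt k (ty B' d) (ty B0 d)) (hBi : B i = [0, 1])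
    (hBi' : B' i = [1, 0]) (hr : RR θ (asm k B) (asm k B')) : RR θ (asm k B0) (asm k B1) := by
  classical
  obtain ⟨j2, ⟨hj1, hj2, hd2⟩, hmin⟩ : ∃ j2, (i < j2 ∧ j2 ≤ k ∧ ad j2 ≠ 0) ∧
      ∀ j', j' < j2 → ¬ (i < j' ∧ j' ≤ k ∧ ad j' ≠ 0) :=
    ⟨Nat.find hxd, Nat.find_spec hxd, fun j' h => Nat.find_min hxd h⟩
  have hmin' : ∀ j', i < j' → j' < j2 → ad j' = 0 := by
    intro j' h2 h3
    by_contra hn
    exact hmin j' h3 ⟨h2, by omega, hn⟩
  have hlast : ∀ j', j2 ≤ j' → j' ≤ k → ac j' = 0 := by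
    intro j' h2 h3
    by_contra hn
    have := hord j' j2 (by omega) hj1 h3 hj2 hn hd2
    omega
  obtain ⟨f, hf⟩ : ∃ f : ℕ → ℕ, ∀ j, f j = if j ≤ i then 0 else if j < j2 then 1 else 2 :=
    ⟨_, fun _ => rfl⟩
  have hbm : BMap k 2 f := by
    refine ⟨fun x y hxy _ => ?_, fun x _ => ?_⟩
    · rw [hf, hf]
      split_ifs <;> omega
    · rw [hf]
      split_ifs <;> omega
  have s1 := push_fam gmd hβ hi hcd hEc hEd hLc hLd hxc hj1 hj2 hd2 hmin' hlast tB Dc Dd hf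
  have s2 := push_fam gmd hβ hi hcd hEc hEd hLc hLd hxc hj1 hj2 hd2 hmin' hlast tB' Dc' Dd' hf
  have s3 := rr_push θ hbm hB hB' hr
  have star : RR θ (B i ++ [2, c, 3, d]) (B' i ++ [2, c, 3, d]) :=
    θ.trans (θ.symm (hle _ _ s1)) (θ.trans s3 (hle _ _ s2))
  rw [hBi, hBi'] at star
  -- the words of the edge
  obtain ⟨j1, hj3, hj4, hc1⟩ := hxc
  have hj5 : j1 < j2 := hord j1 j2 hj3 hj1 hj4 hj2 hc1 hd2
  have hm1 : c ∈ B0 j1 := by
    by_contra hn
    exact hc1 (((hEc j1 hj4).1).1 (List.count_eq_zero.2 hn))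
  have hm2 : d ∈ B0 j2 := by
    by_contra hn
    exact hd2 (((hEd j2 hj2).1).1 (List.count_eq_zero.2 hn))
  obtain ⟨u1, v1, hu1⟩ := List.append_of_mem hm1
  obtain ⟨u2, v2, hu2⟩ := List.append_of_mem hm2
  obtain ⟨R, hR⟩ := pre_split (B := B0) hj5
  obtain ⟨R', hR'⟩ := pre_split (B := B0) hj3
  have hq : ∃ q1 q2 q3, suf B0 i (k - i) = q1 ++ c :: (q2 ++ d :: q3) := by
    refine ⟨R' ++ u1, v1 ++ R ++ u2, v2 ++ suf B0 j2 (k - j2), ?_⟩
    have e1 := asm_split hi B0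
    have e2 := asm_split hj2 B0
    rw [e1, hR, hR', hu1, hu2] at e2
    simp only [List.append_assoc, List.cons_append] at e2
    have e3 := List.append_cancel_left (List.append_cancel_left e2)
    rw [e3]
    simp only [List.append_assoc]
  obtain ⟨q1, q2, q3, hq⟩ := hq
  have w0 : asm k B0 = pre B0 i ++ ([0, 1] ++ (q1 ++ c :: (q2 ++ d :: q3))) := by
    rw [asm_split hi B0, h0, hq, List.append_assoc]
  have w1 : asm k B1 = pre B0 i ++ ([1, 0] ++ (q1 ++ c :: (q2 ++ d :: q3))) := by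
    rw [asm_split hi B1, h1, pre_congr (B' := B0) (fun j hj => (h01 j (by omega)).symm),
      suf_congr (B' := B0) (fun j hj _ => (h01 j (by omega)).symm), hq, List.append_assoc]
  have hs := star.sub (sg q1 q2)
  have e0 : ([0, 1] ++ [2, c, 3, d]).flatMap (sg q1 q2) = [0, 1] ++ (q1 ++ c :: (q2 ++ [d])) := by
    rcases hcd with ⟨rfl, rfl⟩ | ⟨rfl, rfl⟩ <;> simp [sg]
  have e1 : ([1, 0] ++ [2, c, 3, d]).flatMap (sg q1 q2) = [1, 0] ++ (q1 ++ c :: (q2 ++ [d])) := by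
    rcases hcd with ⟨rfl, rfl⟩ | ⟨rfl, rfl⟩ <;> simp [sg]
  rw [e0, e1] at hs
  have ht := ((RR.refl (β := θ) (pre B0 i)).append hs).append (RR.refl (β := θ) q3)
  rw [w0, w1]
  simpa only [List.append_assoc, List.cons_append, List.nil_append] using ht

/-- **KPZ** -/
theorem kpz (one : Pool.Agent.MVO.OneStmt) (jpi : JpiStmt) (bsm : BsmStmt) (gmd : GmdStmt)
    (cbt : CbtStmt) (rga : RgaStmt) (ebx : EbxStmt) : KpzStmt := by
  intro β hβ k a b i hR hLb hcase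
  obtain ⟨hi, hLa, -, -⟩ := hR.vis
  have hadm : ∀ l : List ℕ, l = [0, 1] ∨ l = [1, 0] → Adm b i l := by
    intro l hl
    rcases hl with rfl | rfl
    · refine ⟨fun c hc => ?_, rfl, fun _ => rfl, fun h => absurd hLb h⟩
      simpa using hc
    · refine ⟨fun c hc => ?_, rfl, fun _ => rfl, fun h => absurd hLb h⟩
      have h : c = 1 ∨ c = 0 := by simpa using hc
      exact h.symm
  obtain ⟨ok0, two0, E0, E1⟩ := cbt k a b i [0, 1] hR (hadm _ (Or.inl rfl))
  obtain ⟨ok1, -, -, -⟩ := cbt k a b i [1, 0] hR (hadm _ (Or.inr rfl))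
  have hmL : mL b i = ([0, 1], [1, 0]) := by
    unfold mL
    rw [if_pos hLb]
  have heL : eL k a b i = (asm k (cb a b i [0, 1]), asm k (cb a b i [1, 0])) := by
    unfold eL
    rw [hmL]
  obtain ⟨B0, hB0⟩ : ∃ B0, B0 = cb a b i [0, 1] := ⟨_, rfl⟩
  obtain ⟨B1, hB1⟩ : ∃ B1, B1 = cb a b i [1, 0] := ⟨_, rfl⟩
  rw [← hB0] at ok0 two0 E0 E1
  rw [← hB1] at ok1
  have h0 : B0 i = [0, 1] := by
    rw [hB0]
    unfold cb
    rw [if_pos rfl]
  have h1 : B1 i = [1, 0] := by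
    rw [hB1]
    unfold cb
    rw [if_pos rfl]
  have h01 : ∀ j, j ≠ i → B0 j = B1 j := by
    intro j hj
    rw [hB0, hB1]
    unfold cb
    rw [if_neg hj, if_neg hj]
  have hb01 : Bef [0, 1] 0 1 := by
    intro P Q hPQ
    rcases P with _ | ⟨x, P⟩
    · simp at hPQ
    · rcases P with _ | ⟨y, P⟩
      · simp only [List.cons_append, List.nil_append, List.cons.injEq] at hPQ
        rw [← hPQ.2.2]
        exact List.not_mem_nil
      · simp at hPQ
  have hb10 : ¬ Bef [1, 0] 0 1 := by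
    intro h
    exact h [] [0] rfl (by simp)
  rw [heL, ← hB0, ← hB1]
  refine jpi β (bsm β hβ).toApI k B0 B1 (fun B => Dt k (ty B 0) (ty B0 0) ∧
    Dt k (ty B 1) (ty B0 1) ∧ Bef (B i) 0 1) ok0 ok1 two0 ?_ ?_ ?_ ?_
  · refine ⟨fun j _ => ⟨rfl, Iff.rfl⟩, fun j _ => ⟨rfl, Iff.rfl⟩, ?_⟩
    rw [h0]
    exact hb01
  · rintro ⟨-, -, h⟩
    rw [h1] at h
    exact hb10 h
  · rintro B B' hBB ⟨d0, d1, hbe⟩
    have hcong : ∀ c, Dt k (ty B c) (ty B0 c) → Dt k (ty B' c) (ty B0 c) := by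
      intro c hd j hj
      have e1 : deg j (ty B' c) = deg j (ty B c) := by
        unfold deg
        refine Finset.sum_congr rfl fun x hx => ?_
        have hx' := Finset.mem_range.1 hx
        unfold ty
        rw [hBB x (by omega)]
      have e2 : (∀ j', j < j' → j' ≤ k → ty B' c j' = 0) ↔
          (∀ j', j < j' → j' ≤ k → ty B c j' = 0) := by
        refine forall_congr' fun j' => forall_congr' fun _ => forall_congr' fun h => ?_
        unfold ty
        rw [hBB j' h]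
      rw [e1, e2]
      exact hd j hj
    refine ⟨hcong 0 d0, hcong 1 d1, ?_⟩
    rw [← hBB i hi]
    exact hbe
  · intro θ hle _ hn B B' okB okB' tB tB' hr hA
    obtain ⟨d0, d1, hbe⟩ := hA
    have hXL : XL θ k a b i → False := by
      intro h
      unfold XL at h
      rw [heL, ← hB0, ← hB1] at h
      exact hn h
    have hE : ¬ EE θ := fun h => hXL (ebx β θ hβ hle (Or.inl h) k a b i hR).1
    have hT : ¬ TT θ := fun h => hXL (ebx β θ hβ hle (Or.inr h) k a b i hR).1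
    have hns : ∀ c, c = 0 ∨ c = 1 → NS k c := by
      intro c hc
      unfold NS
      omega
    have hD : ∀ c, c = 0 ∨ c = 1 → Dt k (ty B c) (ty B' c) := by
      intro c hc
      exact rga β θ hβ hle hE hT k _ _ (one.1 θ k B B' c (hns c hc) okB.ok okB'.ok hr)
    have htr : ∀ c, c = 0 ∨ c = 1 → Dt k (ty B c) (ty B0 c) → Dt k (ty B' c) (ty B0 c) := by
      intro c hc h j hj
      have g1 := hD c hc j hj
      have g2 := h j hj
      exact ⟨g1.1.symm.trans g2.1, g1.2.symm.trans g2.2⟩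
    have d0' := htr 0 (Or.inl rfl) d0
    have d1' := htr 1 (Or.inr rfl) d1
    refine ⟨d0', d1', ?_⟩
    by_contra hbe'
    have hp : ∀ C : ℕ → List ℕ, Two01 k C → Dt k (ty C 0) (ty B0 0) → Dt k (ty C 1) (ty B0 1) →
        C i = [0, 1] ∨ C i = [1, 0] := by
      intro C tC c0 c1
      have g0 : ty C 0 i = 1 := f3 c0 E0 hLa hi
      have g1 : ty C 1 i = 1 := f3 c1 E1 hLb hi
      exact pair_of (tC i hi) g0 g1
    have hBi : B i = [0, 1] := by
      rcases hp B tB d0 d1 with h | h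
      · exact h
      · rw [h] at hbe
        exact absurd hbe hb10
    have hBi' : B' i = [1, 0] := by
      rcases hp B' tB' d0' d1' with h | h
      · rw [h] at hbe'
        exact absurd hb01 hbe'
      · exact h
    have hxa := ex_of_deg hLa hi hR.da
    have hxb := ex_of_deg hLb hi hR.db
    apply hn
    rcases hcase with hc | hc
    · exact core gmd hβ hle hi (c := 0) (d := 1) (Or.inl ⟨rfl, rfl⟩) E0 E1 hLa hLb hxa hxb
        hc h0 h1 h01 okB.ok okB'.ok tB tB' d0 d1 d0' d1' hBi hBi' hr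
    · exact core gmd hβ hle hi (c := 1) (d := 0) (Or.inr ⟨rfl, rfl⟩) E1 E0 hLb hLa hxb hxa
        (fun j1 j2 g1 g2 g3 g4 g5 g6 => hc j2 j1 g2 g1 g4 g3 g6 g5) h0 h1 h01 okB.ok okB'.ok
        tB tB' d1 d0 d1' d0' hBi hBi' hr

end Pool.Agent.MWG.H64
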